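import Pool.Agent.helper9.Jit.Main3

/-!
# The bottleneck assignment problem of just-in-time sequencing in time `O(nD)`

There are a program for a unit cost random access machine and a constant `C` such that, for all
`n ≥ 1` and all positive `d_1, …, d_n` with sum `D`, the program started on the input
`M 0 = n, M 1 = d_1, …, M n = d_n` halts after at most `C n D` steps, all numbers occurring
during the run being at most `C D ^ 2` (that is, of `O(log D)` bits), and then the cells
`M (n+1), …, M (n+D)` hold the positions that an optimal assignment gives to the copies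
`(1,1), …, (1,d_1), (2,1), …`.
-/

set_option autoImplicit false

namespace Pool.Agent.Results.MP_253f56_lc.LinearTime

open Pool.Agent.helper9.Jit

/-- The total number `D` of copies. -/
def total {n : ℕ} (d : Fin n → ℕ) : ℕ := ∑ i, d i

/-- The copies: `(i, j)` with `j < d i` stands for copy number `j + 1` of letter `i`. -/
abbrev Copy {n : ℕ} (d : Fin n → ℕ) : Type := Σ i : Fin n, Fin (d i)

/-- The cost `B^i_{jk} = max {|j - 1 - (k - 1) r_i|, |j - k r_i|}` with `r_i = d_i / D`. -/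
noncomputable def cost {n : ℕ} (d : Fin n → ℕ) (i : Fin n) (j k : ℕ) : ℝ :=
  max |(j : ℝ) - 1 - ((k : ℝ) - 1) * ((d i : ℝ) / (total d : ℝ))|
    |(j : ℝ) - (k : ℝ) * ((d i : ℝ) / (total d : ℝ))|

/-- The largest cost of an assignment of the copies to the positions; `p : Fin D` stands for
position number `p + 1`. -/
noncomputable def bottleneck {n : ℕ} (d : Fin n → ℕ) (σ : Copy d ≃ Fin (total d)) : ℝ :=
  ⨆ c : Copy d, cost d c.1 (c.2 + 1) (σ c + 1)

/-- The number of copies before `c` in the list `(1,1), …, (1,d_1), (2,1), …`. -/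
def rank {n : ℕ} (d : Fin n → ℕ) (c : Copy d) : ℕ := (∑ i ∈ Finset.Iio c.1, d i) + c.2

/-- The initial configuration for the input `d`: program counter and registers are `0`,
`M 0 = n`, `M i = d_i` for `1 ≤ i ≤ n`, all other memory cells are `0`. -/
def input {n : ℕ} (d : Fin n → ℕ) : Conf where
  pc := 0
  reg := fun _ => 0
  mem := fun x => if x = 0 then n else if h : x - 1 < n then d ⟨x - 1, h⟩ else 0

/-- The instance in the form used by the program verification. -/
def toInst {n : ℕ} (d : Fin n → ℕ) (hn : 0 < n) (hd : ∀ i, 0 < d i) : Inst where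
  n := n
  d := fun i => if h : i < n then d ⟨i, h⟩ else 0
  D := total d
  hn := hn
  hd := by
    intro i hi
    rw [dif_pos hi]; exact hd _
  hD := by
    unfold total
    rw [Finset.sum_range]
    refine Finset.sum_congr rfl fun i _ => ?_
    rw [dif_pos i.2]

section
variable {n : ℕ} (d : Fin n → ℕ) (hn : 0 < n) (hd : ∀ i, 0 < d i)

theorem toInst_d (i : Fin n) : (toInst d hn hd).d i = d i := by
  show (if h : (i : ℕ) < n then d ⟨i, h⟩ else 0) = d i
  rw [dif_pos i.2]

theorem rank_eq (c : Copy d) : rank d c = (toInst d hn hd).S c.1 + c.2 := by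
  unfold rank Inst.S
  congr 1
  have h : Finset.range (c.1 : ℕ) = (Finset.Iio c.1).map Fin.valEmbedding := by
    rw [Fin.map_valEmbedding_Iio]
    ext x; simp
  rw [h, Finset.sum_map]
  refine Finset.sum_congr rfl fun i _ => ?_
  exact (toInst_d d hn hd i).symm

theorem mem_Cs (c : Copy d) : ((c.1 : ℕ), (c.2 : ℕ)) ∈ (toInst d hn hd).Cs := by
  rw [Inst.mem_Cs]
  refine ⟨c.1.2, ?_⟩
  show (c.2 : ℕ) < (toInst d hn hd).d c.1
  rw [toInst_d]; exact c.2.2

include hn hd in
/-- The costs are integral multiples of `1 / D`. -/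
theorem cost_int (c : Copy d) (p : ℕ) : ∃ N : ℕ, cost d c.1 (c.2 + 1) (p + 1) * total d = N := by
  have hD : (0 : ℝ) < total d := by
    have := (toInst d hn hd).hDpos
    exact_mod_cast this
  refine ⟨max ((total d : ℤ) * c.2 - p * d c.1).natAbs
    ((total d : ℤ) * (c.2 + 1) - (p + 1) * d c.1).natAbs, ?_⟩
  unfold cost
  rw [max_mul_of_nonneg _ _ hD.le]
  have h1 : |((c.2 : ℕ) + 1 : ℕ) - 1 - (((p + 1 : ℕ) : ℝ) - 1) * ((d c.1 : ℝ) / (total d : ℝ))| *
      (total d : ℝ) = (((total d : ℤ) * c.2 - p * d c.1).natAbs : ℝ) := by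
    rw [Nat.cast_natAbs, Int.cast_abs, ← abs_of_pos hD, ← abs_mul, abs_of_pos hD]
    congr 1
    push_cast
    field_simp
    ring
  have h2 : |((c.2 : ℕ) + 1 : ℕ) - ((p + 1 : ℕ) : ℝ) * ((d c.1 : ℝ) / (total d : ℝ))| *
      (total d : ℝ) = (((total d : ℤ) * (c.2 + 1) - (p + 1) * d c.1).natAbs : ℝ) := by
    rw [Nat.cast_natAbs, Int.cast_abs, ← abs_of_pos hD, ← abs_mul, abs_of_pos hD]
    congr 1
    push_cast
    field_simp
  rw [h1, h2, Nat.cast_max]

/-- Cost at most `b / D` means that the position is allowed. -/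
theorem cost_le_iff {b : ℕ} (hb : b < total d) (c : Copy d) (p : ℕ) :
    cost d c.1 (c.2 + 1) (p + 1) ≤ (b : ℝ) / total d ↔
      (toInst d hn hd).valid b c.1 c.2 p := by
  have hD : (0 : ℝ) < total d := by
    have := (toInst d hn hd).hDpos
    exact_mod_cast this
  have hdD : (d c.1 : ℝ) ≤ total d := by
    have := (toInst d hn hd).hdD (i := c.1) c.1.2
    rw [toInst_d] at this
    exact_mod_cast this
  unfold Inst.valid
  rw [Inst.L_le_iff _ hb, Inst.lt_U_iff _ hb, toInst_d]
  show _ ↔ p * d c.1 ≤ total d * c.2 + b ∧ total d * (c.2 + 1) ≤ (p + 1) * d c.1 + b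
  have e1 : (p * d c.1 ≤ total d * c.2 + b) ↔
      ((p : ℝ) * d c.1 ≤ total d * (c.2 : ℕ) + b) := by
    exact_mod_cast Iff.rfl
  have e2 : (total d * (c.2 + 1) ≤ (p + 1) * d c.1 + b) ↔
      ((total d : ℝ) * ((c.2 : ℕ) + 1) ≤ (p + 1) * d c.1 + b) := by
    exact_mod_cast Iff.rfl
  rw [e1, e2]
  unfold cost
  rw [max_le_iff, abs_le, abs_le, le_div_iff₀ hD, le_div_iff₀ hD, ← neg_div, div_le_iff₀ hD,
    div_le_iff₀ hD]
  have h1 : (((((c.2 : ℕ) + 1 : ℕ) : ℝ) - 1 - (((p + 1 : ℕ) : ℝ) - 1) *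
      ((d c.1 : ℝ) / (total d : ℝ))) * (total d : ℝ)) = total d * (c.2 : ℕ) - p * d c.1 := by
    push_cast
    field_simp
    ring
  have h2 : (((((c.2 : ℕ) + 1 : ℕ) : ℝ) - ((p + 1 : ℕ) : ℝ) *
      ((d c.1 : ℝ) / (total d : ℝ))) * (total d : ℝ)) =
        total d * ((c.2 : ℕ) + 1) - (p + 1) * d c.1 := by
    push_cast
    field_simp
  rw [h1, h2]
  constructor
  · rintro ⟨⟨h3, h4⟩, h5, h6⟩
    constructor <;> linarith
  · rintro ⟨h3, h4⟩
    refine ⟨⟨?_, ?_⟩, ?_, ?_⟩ <;> linarith

/-- An assignment all of whose costs are at most `b / D` is good. -/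
theorem good_of_equiv {b : ℕ} (hb : b < total d) (τ : Copy d ≃ Fin (total d))
    (h : ∀ c, cost d c.1 (c.2 + 1) (τ c + 1) ≤ (b : ℝ) / total d) :
    (toInst d hn hd).Feas b := by
  classical
  have hmem : ∀ c ∈ (toInst d hn hd).Cs, ∃ x : Copy d, (x.1 : ℕ) = c.1 ∧ (x.2 : ℕ) = c.2 := by
    intro c hc
    obtain ⟨h1, h2⟩ := (Inst.mem_Cs _).1 hc
    have h3 : c.2 < d ⟨c.1, h1⟩ := by
      rw [← toInst_d d hn hd ⟨c.1, h1⟩]; exact h2
    exact ⟨⟨⟨c.1, h1⟩, ⟨c.2, h3⟩⟩, rfl, rfl⟩
  haveI : Nonempty (Copy d) := ⟨⟨⟨0, hn⟩, ⟨0, hd _⟩⟩⟩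
  choose! x hx1 hx2 using hmem
  refine ⟨fun c => if c ∈ (toInst d hn hd).Cs then (τ (x c) : ℕ) else 0, ?_, ?_⟩
  · intro c hc
    simp only [if_pos hc]
    refine ⟨(τ (x c)).2, ?_⟩
    have := (cost_le_iff d hn hd hb (x c) (τ (x c))).1 (h (x c))
    rw [hx1 c hc, hx2 c hc] at this
    exact this
  · intro c hc c' hc' hcc
    have hc1 := Finset.mem_coe.1 hc
    have hc2 := Finset.mem_coe.1 hc'
    simp only [if_pos hc1, if_pos hc2] at hcc
    have h1 : x c = x c' := τ.injective (Fin.ext hcc)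
    refine Prod.ext ?_ ?_
    · rw [← hx1 c hc1, ← hx1 c' hc2, h1]
    · rw [← hx2 c hc1, ← hx2 c' hc2, h1]

end

/-- Once halted, the machine stays in its configuration. -/
theorem halted {P : List Instr} {s : Conf} (h : P.length ≤ s.pc) (t : ℕ) :
    (step P)^[t] s = s := by
  have h1 : step P s = s := by
    unfold step
    rw [List.getElem?_eq_none h]
  exact Function.iterate_fixed h1 t

theorem result : ∃ (P : List Instr) (C : ℕ), ∀ (n : ℕ) (d : Fin n → ℕ), 0 < n → (∀ i, 0 < d i) →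
    ∃ t ≤ C * (n * total d),
      P.length ≤ ((step P)^[t] (input d)).pc ∧
      (∀ t', Bd (C * total d ^ 2) ((step P)^[t'] (input d))) ∧
      ∃ σ : Copy d ≃ Fin (total d),
        (∀ τ : Copy d ≃ Fin (total d), bottleneck d σ ≤ bottleneck d τ) ∧
        ∀ c : Copy d, ((step P)^[t] (input d)).mem (n + 1 + rank d c) = σ c + 1 := by
  refine ⟨prog mainCmd, 400000, ?_⟩
  intro n d hn hd
  set A := toInst d hn hd with hA
  have hAn : A.n = n := rfl
  have hAD : A.D = total d := rfl
  have hDpos : 0 < total d := A.hDpos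
  have hnD : n ≤ total d := A.hnD
  have hDD : total d ≤ total d * total d := Nat.le_mul_of_pos_left _ hDpos
  obtain ⟨σ', t, hrun, ht, b, hb, hgood, hopt, hpos⟩ := main_spec A
  have hW : (envOf A).W = 200 * (total d * total d) := rfl
  have hB : (envOf A).B = n + total d + 1 := rfl
  have hmem0 : ∀ x, (input d).mem x = inp A x := by
    intro x
    unfold inp
    show (if x = 0 then n else if h : x - 1 < n then d ⟨x - 1, h⟩ else 0) = _
    by_cases h0 : x = 0
    · rw [if_pos h0, if_pos h0, hAn]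
    · rw [if_neg h0, if_neg h0]
      by_cases h1 : x - 1 < n
      · rw [dif_pos h1, if_pos (show x - 1 < A.n from h1)]
        exact (toInst_d d hn hd ⟨x - 1, h1⟩).symm
      · rw [dif_neg h1, if_neg (show ¬ x - 1 < A.n from h1)]
  have hbd0 : Bd (envOf A).W (input d) := by
    refine ⟨fun r => Nat.zero_le _, fun x => ?_⟩
    rw [hmem0, hW]
    unfold inp
    split
    · show n ≤ _
      omega
    · split
      · rename_i h1
        have h2 : A.d (x - 1) ≤ total d := A.hdD h1
        omega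
      · omega
  have hsim0 : Sim (envOf A).B (st0 A) (input d) := by
    refine ⟨fun v _ => rfl, fun x _ => ?_, fun a ha1 ha2 x => ?_⟩
    · rw [hmem0]; simp [st0]
    · rw [hmem0, hB]
      simp only [st0]
      rw [if_neg (by omega)]
      unfold inp
      rw [if_neg (by omega), if_neg (by rw [hAn]; omega)]
  obtain ⟨s', hst, hhalt, hsim'⟩ := prog_correct hrun (s := input d) rfl hbd0 hsim0
  have hs' : (step (prog mainCmd))^[t] (input d) = s' := hst.1
  have hbd : ∀ t', Bd (400000 * total d ^ 2) ((step (prog mainCmd))^[t'] (input d)) := by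
    intro t'
    have hle : (envOf A).W ≤ 400000 * total d ^ 2 := by
      rw [hW, pow_two]; omega
    have h1 : Bd (envOf A).W ((step (prog mainCmd))^[t'] (input d)) := by
      by_cases h2 : t' ≤ t
      · exact hst.2 t' h2
      · have h3 : t' = (t' - t) + t := by omega
        rw [h3, Function.iterate_add_apply, hs', halted hhalt, ← hs']
        exact hst.2 t le_rfl
    exact ⟨fun r => (h1.1 r).trans hle, fun x => (h1.2 x).trans hle⟩
  -- the assignment
  set π : ℕ × ℕ → ℕ := fun c => σ'.m 0 (A.n + 1 + (A.S c.1 + c.2)) - 1 with hπ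
  have hπlt : ∀ c : Copy d, π ((c.1 : ℕ), (c.2 : ℕ)) < total d := fun c =>
    (hgood.1 _ (mem_Cs d hn hd c)).1
  set e : Copy d → Fin (total d) := fun c => ⟨π ((c.1 : ℕ), (c.2 : ℕ)), hπlt c⟩ with he
  have hinj : Function.Injective e := by
    intro c c' hcc
    have h1 : π ((c.1 : ℕ), (c.2 : ℕ)) = π ((c'.1 : ℕ), (c'.2 : ℕ)) := congrArg Fin.val hcc
    have h2 := hgood.2 (Finset.mem_coe.2 (mem_Cs d hn hd c))
      (Finset.mem_coe.2 (mem_Cs d hn hd c')) h1
    obtain ⟨i, j⟩ := c
    obtain ⟨i', j'⟩ := c'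
    simp only [Prod.mk.injEq] at h2
    obtain ⟨h3, h4⟩ := h2
    have h5 : i = i' := Fin.ext h3
    subst h5
    have h6 : j = j' := Fin.ext h4
    subst h6
    rfl
  have hbij : Function.Bijective e := by
    rw [Fintype.bijective_iff_injective_and_card]
    refine ⟨hinj, ?_⟩
    rw [Fintype.card_sigma, Fintype.card_fin]
    simp [total]
  refine ⟨t, by rw [← hAD, ← hAn]; exact ht, ?_, hbd, Equiv.ofBijective e hbij, ?_, ?_⟩
  · rw [hs']; exact hhalt
  · -- optimality
    intro τ
    have hne : Nonempty (Copy d) := ⟨⟨⟨0, hn⟩, ⟨0, hd _⟩⟩⟩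
    have hDr : (0 : ℝ) < total d := by exact_mod_cast hDpos
    have hup : bottleneck d (Equiv.ofBijective e hbij) ≤ (b : ℝ) / total d := by
      unfold bottleneck
      refine ciSup_le fun c => ?_
      refine (cost_le_iff d hn hd hb c _).2 ?_
      exact (hgood.1 _ (mem_Cs d hn hd c)).2
    refine hup.trans ?_
    by_contra hcon
    rw [not_le] at hcon
    have hle : ∀ c, cost d c.1 (c.2 + 1) (τ c + 1) < (b : ℝ) / total d := by
      intro c
      refine lt_of_le_of_lt ?_ hcon
      unfold bottleneck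
      exact le_ciSup (f := fun c : Copy d => cost d c.1 (c.2 + 1) (τ c + 1))
        (Set.finite_range _).bddAbove c
    have hint : ∀ c, cost d c.1 (c.2 + 1) (τ c + 1) ≤ ((b - 1 : ℕ) : ℝ) / total d ∧ 1 ≤ b := by
      intro c
      obtain ⟨N, hN⟩ := cost_int d hn hd c (τ c)
      have h1 := hle c
      rw [lt_div_iff₀ hDr, hN] at h1
      have h2 : N < b := by exact_mod_cast h1
      refine ⟨?_, by omega⟩
      rw [le_div_iff₀ hDr, hN]
      have h3 : N ≤ b - 1 := by omega
      exact_mod_cast h3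
    have hb1 : 1 ≤ b := (hint hne.some).2
    have hb2 : b < total d := hb
    exact hopt (b - 1) (by omega)
      (good_of_equiv d hn hd (b := b - 1) (by omega) τ fun c => (hint c).1)
  · -- the output
    intro c
    rw [hs']
    have hr : rank d c = A.S c.1 + c.2 := rank_eq d hn hd c
    have hlt : A.S c.1 + c.2 < A.D := by
      refine A.S_lt c.1.2 ?_
      show (c.2 : ℕ) < (toInst d hn hd).d c.1
      rw [toInst_d]; exact c.2.2
    rw [hsim'.2.1 _ (by rw [hB, hr]; rw [hAD] at hlt; omega), hr]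
    have hp := hpos c.1 c.1.2 c.2 (by
      show (c.2 : ℕ) < (toInst d hn hd).d c.1
      rw [toInst_d]; exact c.2.2)
    show σ'.m 0 (n + 1 + (A.S c.1 + c.2)) = π ((c.1 : ℕ), (c.2 : ℕ)) + 1
    rw [hπ]
    show σ'.m 0 (n + 1 + (A.S c.1 + c.2)) = σ'.m 0 (A.n + 1 + (A.S c.1 + c.2)) - 1 + 1
    rw [hAn] at hp ⊢
    omega

end Pool.Agent.Results.MP_253f56_lc.LinearTime
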